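import Mathlib
import Pool.Agent.Schw83.Basic

/-!
# Schwarzian convergence does not imply pre-Schwarzian convergence in the class Sigma
-/

open Filter Topology
open scoped ENNReal

namespace Pool.Agent.Results.MP_d610ab_an.SigmaDisproof

/-- The exterior of the closed unit disc. -/
def extDisc : Set ℂ := {w | 1 < ‖w‖}

/-- The class `Σ`: `f` is holomorphic and injective on `|w| > 1` and has there an expansion
`f(w) = w + b_0 + b_1 w⁻¹ + b_2 w⁻² + ⋯`. -/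
def ClassSigma (f : ℂ → ℂ) : Prop :=
  DifferentiableOn ℂ f extDisc ∧ Set.InjOn f extDisc ∧
    ∃ b : ℕ → ℂ, ∀ w ∈ extDisc, HasSum (fun k => b k * (w⁻¹) ^ k) (f w - w)

/-- The pre-Schwarzian `P_f = f'' / f'`. -/
noncomputable def preSchwarzian (f : ℂ → ℂ) (w : ℂ) : ℂ := deriv (deriv f) w / deriv f w

/-- The Schwarzian `S_f = P_f' - P_f² / 2`. -/
noncomputable def schwarzian (f : ℂ → ℂ) (w : ℂ) : ℂ :=
  deriv (preSchwarzian f) w - 1 / 2 * preSchwarzian f w ^ 2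

/-- `d_2(f, g) = sup_{|w| > 1} (|w|² - 1)² |S_g(w) - S_f(w)|`, in `[0, ∞]`. -/
noncomputable def d2 (f g : ℂ → ℂ) : ℝ≥0∞ :=
  ⨆ w ∈ extDisc, ENNReal.ofReal ((‖w‖ ^ 2 - 1) ^ 2 * ‖schwarzian g w - schwarzian f w‖)

/-- `d_1(f, g) = sup_{|w| > 1} (|w|² - 1) |P_g(w) - P_f(w)|`, in `[0, ∞]`. -/
noncomputable def d1 (f g : ℂ → ℂ) : ℝ≥0∞ :=
  ⨆ w ∈ extDisc, ENNReal.ofReal ((‖w‖ ^ 2 - 1) * ‖preSchwarzian g w - preSchwarzian f w‖)

/-! ### Proof -/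

private lemma laurent {f : ℂ → ℂ} (hd : DifferentiableOn ℂ f extDisc) {C : ℝ}
    (hC : ∀ z : ℂ, 2 < ‖z‖ → ‖f z - z‖ ≤ C) :
    ∃ b : ℕ → ℂ, ∀ w ∈ extDisc, HasSum (fun k => b k * (w⁻¹) ^ k) (f w - w) := by
  set h : ℂ → ℂ := fun z => f z⁻¹ - z⁻¹ with hh
  have hinv : ∀ z ∈ Metric.ball (0 : ℂ) 1 \ {0}, z⁻¹ ∈ extDisc := by
    intro z hz
    have h1 : ‖z‖ < 1 := by simpa using hz.1
    have h2 : z ≠ 0 := hz.2
    show 1 < ‖z⁻¹‖
    rw [norm_inv]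
    exact (one_lt_inv₀ (norm_pos_iff.2 h2)).2 h1
  have hdh : DifferentiableOn ℂ h (Metric.ball 0 1 \ {0}) := by
    have h1 : DifferentiableOn ℂ (fun z : ℂ => z⁻¹) (Metric.ball 0 1 \ {0}) := fun z hz =>
      (differentiableAt_inv hz.2).differentiableWithinAt
    exact (hd.comp h1 hinv).sub h1
  have hb : ∀ z ∈ Metric.ball (0 : ℂ) (1 / 2) \ {0}, ‖h z‖ ≤ C := by
    intro z hz
    have h1 : ‖z‖ < 1 / 2 := by simpa using hz.1
    have h2 : z ≠ 0 := hz.2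
    apply hC
    rw [norm_inv, lt_inv_comm₀ (by norm_num) (norm_pos_iff.2 h2)]
    simpa using h1
  have hlo : (fun z => h z - h 0) =o[𝓝[≠] (0 : ℂ)] fun z => (z - 0)⁻¹ := by
    apply IsBoundedUnder.isLittleO_sub_self_inv
    refine ⟨C + ‖h 0‖, ?_⟩
    rw [eventually_map]
    have h3 : Metric.ball (0 : ℂ) (1 / 2) \ {0} ∈ 𝓝[≠] (0 : ℂ) :=
      sdiff_mem_nhdsWithin_compl (Metric.ball_mem_nhds _ (by norm_num)) _
    filter_upwards [h3] with z hz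
    exact norm_sub_le_of_le (hb z hz) le_rfl
  have hext := Complex.differentiableOn_update_limUnder_of_isLittleO
    (Metric.ball_mem_nhds (0 : ℂ) one_pos) hdh hlo
  set H := Function.update h 0 (limUnder (𝓝[≠] 0) h) with hH
  refine ⟨fun k => (k.factorial : ℂ)⁻¹ * iteratedDeriv k H 0, fun w hw => ?_⟩
  have hw1 : 1 < ‖w‖ := hw
  have hw0 : w ≠ 0 := by
    rintro rfl
    simp at hw1
    linarith
  have hz : w⁻¹ ∈ Metric.ball (0 : ℂ) 1 := by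
    rw [mem_ball_zero_iff, norm_inv]
    exact inv_lt_one_of_one_lt₀ hw1
  have hs := Complex.hasSum_taylorSeries_on_ball hext hz
  have hHw : H w⁻¹ = f w - w := by
    rw [hH, Function.update_of_ne (inv_ne_zero hw0), hh]
    simp
  rw [hHw] at hs
  refine hs.congr_fun fun k => ?_
  simp only [sub_zero, smul_eq_mul]
  ring

private lemma sigma_limit : ClassSigma Schw83.F0 :=
  ⟨fun _ hz => (Schw83.hasDerivAt_f hz).differentiableAt.differentiableWithinAt, Schw83.F0_inj,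
    laurent (fun _ hz => (Schw83.hasDerivAt_f hz).differentiableAt.differentiableWithinAt)
      fun _ hz => Schw83.F0_near hz⟩

private lemma sigma_seq (n : ℕ) : ClassSigma (Schw83.G n) := by
  have hd : DifferentiableOn ℂ (Schw83.G n) extDisc := fun z hz =>
    (Schw83.hasDerivAt_g hz (Schw83.exp_sub_one_ne hz)).differentiableAt.differentiableWithinAt
  refine ⟨hd, Schw83.G_inj n, laurent (C := 3) hd fun z hz => ?_⟩
  have h1 := Schw83.G_near n hz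
  have h2 := Schw83.F0_near hz
  calc ‖Schw83.G n z - z‖ = ‖(Schw83.G n z - Schw83.F0 z) + (Schw83.F0 z - z)‖ := by ring_nf
    _ ≤ ‖Schw83.G n z - Schw83.F0 z‖ + ‖Schw83.F0 z - z‖ := norm_add_le _ _
    _ ≤ 3 := by linarith

private lemma d2_le (n : ℕ) :
    d2 Schw83.F0 (Schw83.G n) ≤ ENNReal.ofReal (2 / ((n : ℝ) + 10) ^ 2) := by
  unfold d2
  refine iSup₂_le fun z hz => ENNReal.ofReal_le_ofReal ?_
  have hz' : 1 < ‖z‖ := hz
  have h0 := Schw83.schwarzian_diff n hz'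
  have h0' : schwarzian (Schw83.G n) z - schwarzian Schw83.F0 z =
      -(Schw83.mu n ^ 2 / 2) * Schw83.V z ^ 2 := h0
  rw [h0']
  have h1 : ‖-(Schw83.mu n ^ 2 / 2) * Schw83.V z ^ 2‖ = ‖Schw83.mu n‖ ^ 2 / 2 * ‖Schw83.V z‖ ^ 2 := by
    rw [norm_mul, norm_neg, norm_div, norm_pow, norm_pow]; simp
  rw [h1]
  have h2 := Schw83.weight_V hz'
  have h3 := mul_nonneg (Schw83.weight_nonneg hz') (norm_nonneg (Schw83.V z))
  have h4 : ((‖z‖ ^ 2 - 1) * ‖Schw83.V z‖) ^ 2 ≤ 2 ^ 2 := pow_le_pow_left₀ h3 h2 2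
  have h5 := Schw83.mu_norm n
  have h6 : ‖Schw83.mu n‖ ^ 2 ≤ (1 / ((n : ℝ) + 10)) ^ 2 :=
    pow_le_pow_left₀ (norm_nonneg _) h5 2
  calc (‖z‖ ^ 2 - 1) ^ 2 * (‖Schw83.mu n‖ ^ 2 / 2 * ‖Schw83.V z‖ ^ 2)
      = ((‖z‖ ^ 2 - 1) * ‖Schw83.V z‖) ^ 2 * (‖Schw83.mu n‖ ^ 2 / 2) := by ring
    _ ≤ 2 ^ 2 * (‖Schw83.mu n‖ ^ 2 / 2) := by gcongr
    _ = 2 * ‖Schw83.mu n‖ ^ 2 := by ring
    _ ≤ 2 * (1 / ((n : ℝ) + 10)) ^ 2 := by linarith
    _ = _ := by rw [one_div, inv_pow]; rfl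

private lemma le_d1 (n : ℕ) : ENNReal.ofReal (1 / 10) ≤ d1 Schw83.F0 (Schw83.G n) := by
  unfold d1
  refine le_iSup₂_of_le ((Schw83.ww n : ℝ) : ℂ) (Schw83.ww_norm n) (ENNReal.ofReal_le_ofReal ?_)
  have h0 := Schw83.pre_diff n (Schw83.ww_norm n)
  have h0' : preSchwarzian (Schw83.G n) ((Schw83.ww n : ℝ) : ℂ) -
      preSchwarzian Schw83.F0 ((Schw83.ww n : ℝ) : ℂ) = _ := h0
  rw [h0', norm_mul, ← mul_assoc]
  have h2 := Schw83.weight_V_ww n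
  have h3 := Schw83.bracket_lower n
  nlinarith

/-- **Schwarzian convergence in the class `Σ` does not imply pre-Schwarzian convergence**: there are
`f, f_0, f_1, …` in `Σ` with `d_2(f, f_n) → 0`, in fact `d_2(f, f_n) ≤ 2 / (n + 10)²`, but
`d_1(f, f_n) ≥ 1 / 10` for every `n`. -/
theorem result :
    ∃ (f : ℂ → ℂ) (F : ℕ → ℂ → ℂ), ClassSigma f ∧ (∀ n, ClassSigma (F n)) ∧
      Tendsto (fun n => d2 f (F n)) atTop (𝓝 0) ∧
      (∀ n, d2 f (F n) ≤ ENNReal.ofReal (2 / ((n : ℝ) + 10) ^ 2)) ∧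
      ∀ n, ENNReal.ofReal (1 / 10) ≤ d1 f (F n) := by
  refine ⟨Schw83.F0, Schw83.G, sigma_limit, sigma_seq, ?_, d2_le, le_d1⟩
  have h1 : Tendsto (fun n : ℕ => ENNReal.ofReal (2 / ((n : ℝ) + 10) ^ 2)) atTop (𝓝 0) := by
    rw [← ENNReal.ofReal_zero]
    apply (ENNReal.continuous_ofReal.tendsto 0).comp
    have h2 : Tendsto (fun n : ℕ => ((n : ℝ) + 10) ^ 2) atTop atTop :=
      (tendsto_pow_atTop two_ne_zero).comp
        (tendsto_atTop_add_const_right _ _ tendsto_natCast_atTop_atTop)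
    exact tendsto_const_nhds.div_atTop h2
  exact tendsto_of_tendsto_of_tendsto_of_le_of_le tendsto_const_nhds h1 (fun _ => zero_le) d2_le

end Pool.Agent.Results.MP_d610ab_an.SigmaDisproof
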